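import Mathlib

set_option autoImplicit false

namespace Pool.Agent.Results.MP_bf8bcd_co.NoField

open Matrix

/-- `d` is the minimum rank distance of `C`. -/
def MinDist {F : Type} [Field F] {n : ℕ} (C : Set (Matrix (Fin n) (Fin n) F)) (d : ℕ) : Prop :=
  (∃ X ∈ C, ∃ Y ∈ C, X ≠ Y ∧ (X - Y).rank = d) ∧ ∀ X ∈ C, ∀ Y ∈ C, X ≠ Y → d ≤ (X - Y).rank

/-- An additive MRD code with minimum distance `d`. -/
def AddMRD {F : Type} [Field F] [Fintype F] {n : ℕ} (C : Set (Matrix (Fin n) (Fin n) F)) (d : ℕ) :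
    Prop :=
  (∀ X ∈ C, ∀ Y ∈ C, X + Y ∈ C) ∧ MinDist C d ∧ C.ncard = Fintype.card F ^ (n * (n - d + 1))

/-- Equivalence of codes. -/
def Equivalent {F : Type} [Field F] {n : ℕ} (C C' : Set (Matrix (Fin n) (Fin n) F)) : Prop :=
  ∃ (A B : Matrix (Fin n) (Fin n) F) (σ : F ≃+* F), IsUnit A ∧ IsUnit B ∧
    (C' = (fun X => A * X.map σ * B) '' C ∨ C' = (fun X => A * (X.map σ)ᵀ * B) '' C)

/-- The field spread set of a degree `n` extension `K` of `F` in the basis `b`. -/
def fieldSpread {F : Type} [Field F] {n : ℕ} {K : Type} [Field K] [Algebra F K]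
    (b : Module.Basis (Fin n) F K) : Set (Matrix (Fin n) (Fin n) F) :=
  Set.range (Algebra.leftMulMatrix b)

/-- The field with four elements: `(x, y)` is `x + y w` with `w ^ 2 = w + 1`. -/
def F4 : Type := Bool × Bool

instance : DecidableEq F4 := inferInstanceAs (DecidableEq (Bool × Bool))
instance : Fintype F4 := inferInstanceAs (Fintype (Bool × Bool))
instance : Zero F4 := ⟨(false, false)⟩
instance : One F4 := ⟨(true, false)⟩
instance : Add F4 := ⟨fun a b => (xor a.1 b.1, xor a.2 b.2)⟩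
instance : Neg F4 := ⟨fun a => a⟩
instance : Mul F4 :=
  ⟨fun a b => (xor (a.1 && b.1) (a.2 && b.2), xor (xor (a.1 && b.2) (a.2 && b.1)) (a.2 && b.2))⟩
instance : Inv F4 := ⟨fun a => a * a⟩
instance : Field F4 := Field.ofMinimalAxioms F4 (by decide) (by decide) (by decide) (by decide)
  (by decide) (by decide) (by decide) (by decide) (by decide) (by decide)

def w : F4 := (false, true)

def sel (x c d : F4) : F4 := cond x.1 c 0 + cond x.2 d 0

theorem sel_add : ∀ x y c d : F4, sel (x + y) c d = sel x c d + sel y c d := by decide +kernel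

def g0 (a b c d e f : F4) : F4 :=
  sel a (false, false) (true, false) +
    sel b (true, false) (false, true) +
    sel c (true, false) (true, false) +
    sel d (false, false) (true, false) +
    sel e (false, false) (false, false) +
    sel f (true, false) (false, true)
def g1 (a b c d e f : F4) : F4 :=
  sel a (true, false) (true, false) +
    sel b (true, true) (true, false) +
    sel c (true, true) (false, true) +
    sel d (true, true) (false, true) +
    sel e (true, false) (true, true) +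
    sel f (false, false) (false, true)
def g2 (a b c d e f : F4) : F4 :=
  sel a (true, false) (false, true) +
    sel b (false, false) (false, false) +
    sel c (true, false) (true, true) +
    sel d (false, false) (true, true) +
    sel e (false, true) (true, false) +
    sel f (false, true) (true, true)

def mk (a b c d e f : F4) : Matrix (Fin 3) (Fin 3) F4 :=
  !![g0 a b c d e f, g1 a b c d e f, g2 a b c d e f; a, b, c; d, e, f]

def mk' (y : Fin 6 → F4) : Matrix (Fin 3) (Fin 3) F4 := mk (y 0) (y 1) (y 2) (y 3) (y 4) (y 5)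

theorem mk_add (y z : Fin 6 → F4) : mk' y + mk' z = mk' (y + z) := by
  funext i j
  fin_cases i <;> fin_cases j <;> simp [mk', mk, g0, g1, g2, sel_add] <;> abel

theorem mk_inj : Function.Injective mk' := by
  intro y z h
  have e := fun i j => congrFun (congrFun h i) j
  funext k
  fin_cases k
  exacts [e 1 0, e 1 1, e 1 2, e 2 0, e 2 1, e 2 2]

theorem minor {F : Type} [Field F] (X : Matrix (Fin 3) (Fin 3) F) (i i' j j' : Fin 3)
    (h : X i j * X i' j' ≠ X i j' * X i' j) : 2 ≤ X.rank := by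
  refine le_trans ?_ (rank_submatrix_le X ![i, i'] ![j, j'])
  rw [rank_of_det_ne_zero]
  · simp
  · rw [det_fin_two]
    exact sub_ne_zero.2 h

def nz (a b c d e f : F4) : Bool :=
  a * e != b * d || a * f != c * d || b * f != c * e

theorem k1 : ∀ a b c d e f : F4, (a = 0 ∧ b = 0 ∧ c = 0 ∧ d = 0 ∧ e = 0 ∧ f = 0) ∨
    nz a b c d e f = true ∨
    nz (g0 a b c d e f) (g1 a b c d e f) (g2 a b c d e f) a b c = true ∨
    nz (g0 a b c d e f) (g1 a b c d e f) (g2 a b c d e f) d e f = true := by decide +kernel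

theorem k2 : ∀ a b c d e f : F4,
    g0 (w * a) (w * b) (w * c) (w * d) (w * e) (w * f) = w * g0 a b c d e f →
    g1 (w * a) (w * b) (w * c) (w * d) (w * e) (w * f) = w * g1 a b c d e f →
    g2 (w * a) (w * b) (w * c) (w * d) (w * e) (w * f) = w * g2 a b c d e f →
    g2 a b c d e f = 0 := by decide +kernel

theorem nz_rank (X : Matrix (Fin 3) (Fin 3) F4) (i i' : Fin 3)
    (h : nz (X i 0) (X i 1) (X i 2) (X i' 0) (X i' 1) (X i' 2) = true) : 2 ≤ X.rank := by
  simp only [nz, Bool.or_eq_true, bne_iff_ne] at h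
  rcases h with (h | h) | h
  · exact minor X i i' 0 1 h
  · exact minor X i i' 0 2 h
  · exact minor X i i' 1 2 h

theorem two_rank (y : Fin 6 → F4) (hy : y ≠ 0) : 2 ≤ (mk' y).rank := by
  rcases k1 (y 0) (y 1) (y 2) (y 3) (y 4) (y 5) with h | h | h | h
  · refine absurd (funext fun k => ?_) hy
    obtain ⟨h0, h1, h2, h3, h4, h5⟩ := h
    fin_cases k
    exacts [h0, h1, h2, h3, h4, h5]
  · exact nz_rank _ 1 2 h
  · exact nz_rank _ 0 1 h
  · exact nz_rank _ 0 2 h

theorem key (X : Matrix (Fin 3) (Fin 3) F4) (h1 : X ∈ Set.range mk') (h2 : w • X ∈ Set.range mk') :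
    X 0 2 = 0 := by
  obtain ⟨y, rfl⟩ := h1
  obtain ⟨z, hz⟩ := h2
  have e := fun i j => congrFun (congrFun hz i) j
  have z0 : z 0 = w * y 0 := e 1 0
  have z1 : z 1 = w * y 1 := e 1 1
  have z2 : z 2 = w * y 2 := e 1 2
  have z3 : z 3 = w * y 3 := e 2 0
  have z4 : z 4 = w * y 4 := e 2 1
  have z5 : z 5 = w * y 5 := e 2 2
  apply k2 (y 0) (y 1) (y 2) (y 3) (y 4) (y 5) <;> rw [← z0, ← z1, ← z2, ← z3, ← z4, ← z5]
  exacts [e 0 0, e 0 1, e 0 2]

theorem nosub (K : Type) [AddCommGroup K] [Finite K] (hK : Nat.card K = 64)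
    (Φ : K →+ Matrix (Fin 3) (Fin 3) F4) (h1 : ∀ a, a ≠ 0 → IsUnit (Φ a))
    (h2 : ∀ a, Φ a 0 2 = 0) : False := by
  let ψ : K → (Fin 2 → F4) := fun a => ![Φ a 0 0, Φ a 0 1]
  have hinj : Function.Injective ψ := by
    intro a b hab
    by_contra hne
    have hu := h1 (a - b) (sub_ne_zero.2 hne)
    rw [isUnit_iff_isUnit_det, isUnit_iff_ne_zero] at hu
    apply hu
    apply det_eq_zero_of_row_eq_zero 0
    intro j
    rw [map_sub, Matrix.sub_apply, sub_eq_zero]
    fin_cases j
    · exact congrFun hab 0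
    · exact congrFun hab 1
    · exact (h2 a).trans (h2 b).symm
  have := Nat.card_le_card_of_injective ψ hinj
  rw [hK, Nat.card_eq_fintype_card, Fintype.card_fun] at this
  exact absurd this (by decide)

theorem result : ∃ (F : Type) (_ : Field F) (_ : Fintype F) (n d : ℕ)
    (C : Set (Matrix (Fin n) (Fin n) F)), 2 ≤ n ∧ d < n ∧ AddMRD C d ∧
      ∀ (K : Type) [Field K] [Algebra F K] (b : Module.Basis (Fin n) F K),
        ¬ ∃ D ⊆ C, Equivalent (fieldSpread b) D := by
  have hs : ∀ y z, mk' y - mk' z = mk' (y - z) := fun y z => by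
    rw [sub_eq_iff_eq_add, mk_add, sub_add_cancel]
  refine ⟨F4, inferInstance, inferInstance, 3, 2, Set.range mk', by norm_num, by norm_num,
    ⟨?_, ⟨?_, ?_⟩, ?_⟩, ?_⟩
  · rintro _ ⟨y, rfl⟩ _ ⟨z, rfl⟩
    exact ⟨y + z, (mk_add y z).symm⟩
  · have hne : (![1, 0, 0, 0, 0, 0] : Fin 6 → F4) ≠ 0 := by decide
    refine ⟨_, ⟨![1, 0, 0, 0, 0, 0], rfl⟩, _, ⟨0, rfl⟩, fun h => hne (mk_inj h), ?_⟩
    rw [hs, sub_zero]
    refine le_antisymm ?_ (two_rank _ hne)
    have : mk' ![1, 0, 0, 0, 0, 0] = (!![1, 0; 0, 1; 0, 0] : Matrix (Fin 3) (Fin 2) F4) *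
        (mk' ![1, 0, 0, 0, 0, 0]).submatrix ![0, 1] id := by decide +kernel
    rw [this]
    exact (rank_mul_le_left _ _).trans (rank_le_width _)
  · rintro _ ⟨y, rfl⟩ _ ⟨z, rfl⟩ hne
    rw [hs]
    exact two_rank _ (fun e => hne (by rw [sub_eq_zero.1 e]))
  · rw [Set.ncard_range_of_injective mk_inj, Nat.card_eq_fintype_card, Fintype.card_fun]
    decide
  · rintro K _ _ b ⟨D, hD, A, B, σ, hA, hB, hE⟩
    have hfin : Finite K := Finite.of_equiv _ b.equivFun.toEquiv.symm
    have hK : Nat.card K = 64 := by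
      rw [Nat.card_congr b.equivFun.toEquiv, Nat.card_eq_fintype_card, Fintype.card_fun]
      decide
    have hu : ∀ a : K, a ≠ 0 → IsUnit ((Algebra.leftMulMatrix b a).map σ) := fun a ha =>
      ((IsUnit.mk0 a ha).map (Algebra.leftMulMatrix b)).map (RingHom.mapMatrix σ.toRingHom)
    have hw : ∀ a : K, (Algebra.leftMulMatrix b (σ.symm w • a)).map σ =
        w • (Algebra.leftMulMatrix b a).map σ := by
      intro a
      rw [map_smul]
      funext i j
      simp
    have hadd : ∀ a c : K, (Algebra.leftMulMatrix b (a + c)).map σ =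
        (Algebra.leftMulMatrix b a).map σ + (Algebra.leftMulMatrix b c).map σ := by
      intro a c
      rw [map_add]
      funext i j
      simp
    rcases hE with rfl | rfl
    · refine nosub K hK (AddMonoidHom.mk' (fun a => A * (Algebra.leftMulMatrix b a).map σ * B)
        (fun a c => by rw [hadd, mul_add, add_mul])) (fun a ha => (hA.mul (hu a ha)).mul hB)
        (fun a => key _ (hD ⟨_, ⟨a, rfl⟩, rfl⟩) (hD ⟨_, ⟨σ.symm w • a, rfl⟩, ?_⟩))
      simp only [hw, Matrix.mul_smul, Matrix.smul_mul, AddMonoidHom.mk'_apply]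
    · refine nosub K hK (AddMonoidHom.mk' (fun a => A * ((Algebra.leftMulMatrix b a).map σ)ᵀ * B)
        (fun a c => by rw [hadd, transpose_add, mul_add, add_mul]))
        (fun a ha => (hA.mul ((isUnit_transpose _).2 (hu a ha))).mul hB)
        (fun a => key _ (hD ⟨_, ⟨a, rfl⟩, rfl⟩) (hD ⟨_, ⟨σ.symm w • a, rfl⟩, ?_⟩))
      simp only [hw, transpose_smul, Matrix.mul_smul, Matrix.smul_mul, AddMonoidHom.mk'_apply]

end Pool.Agent.Results.MP_bf8bcd_co.NoField
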